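import Pool.Agent.N31.WittPos

/-!
# Infinite-dimensional Noetherian residually nilpotent Lie algebras exist

Over every field of characteristic zero the Lie algebra of all derivations `X ^ 2 f d/dX`,
`f` a polynomial, satisfies the maximal condition for subalgebras, is approximable by nilpotent Lie
algebras and is infinite-dimensional.
-/

set_option autoImplicit false

universe u

namespace Pool.Agent.Results.MP_d0ec72_al.NoetherianWitt

/-- Over every field `k` of characteristic zero there is an infinite-dimensional Lie algebra `L`
in which every ascending chain of subalgebras is eventually constant and in which every nonzero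
element `x` lies outside some ideal `I` with `L / I` nilpotent. -/
theorem result (k : Type u) [Field k] [CharZero k] :
    ∃ (L : Type u) (_ : LieRing L) (_ : LieAlgebra k L),
      ¬ FiniteDimensional k L ∧
      (∀ H : ℕ → LieSubalgebra k L, Monotone H → ∃ N, ∀ n ≥ N, H n = H N) ∧
      (∀ x : L, x ≠ 0 → ∃ I : LieIdeal k L, x ∉ I ∧ LieRing.IsNilpotent (L ⧸ I)) :=
  ⟨Pool.Agent.N31.WittPos.W k, inferInstance, inferInstance,
    Pool.Agent.N31.WittPos.infinite_dim, Pool.Agent.N31.WittPos.max_cond,
    fun _ hx => ⟨_, Pool.Agent.N31.WittPos.not_mem_idl hx,
      Pool.Agent.N31.WittPos.quot_nilpotent _⟩⟩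

end Pool.Agent.Results.MP_d0ec72_al.NoetherianWitt
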